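import Pool.Agent.TU.K6

set_option autoImplicit false

/-!
# [ORD-O0] quadratic twist families, `j ≠ 0, 1728`
-/

namespace ORD

/-- Let `W d` be a curve with `c₄ = A d²`, `c₆ = B d³`, `Δ = D₀ d⁶` (`A, B ≠ 0`) for each `d`. Every curve with the same `j`-invariant is isomorphic to
some `W d`. -/
theorem exists_tw {L : Type} [Field L] [CharZero L] (W : L → WeierstrassCurve L) {A B D₀ : L} (hA : A ≠ 0) (hB : B ≠ 0)
    (c4 : ∀ d, (W d).c₄ = A * d ^ 2) (c6 : ∀ d, (W d).c₆ = B * d ^ 3) (hD : ∀ d, (W d).Δ = D₀ * d ^ 6)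
    (E : WeierstrassCurve L) [E.IsElliptic] (hj : D₀ * E.j = A ^ 3) :
    ∃ (d : L) (C : WeierstrassCurve.VariableChange L), d ≠ 0 ∧ E = C • W d := by
  have hΔ : E.Δ ≠ 0 := E.isUnit_Δ.ne_zero
  have hj2 : D₀ * E.c₄ ^ 3 = A ^ 3 * E.Δ := by
    rw [← hj, WeierstrassCurve.j, ← WeierstrassCurve.coe_Δ']
    have h1 : (E.Δ' : L) * ((E.Δ'⁻¹ : Lˣ) * E.c₄ ^ 3) = E.c₄ ^ 3 := Units.mul_inv_cancel_left _ _
    linear_combination (-D₀) * h1
  have hrel := E.c_relation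
  have hrel1 := (W 1).c_relation
  rw [c4, c6, hD] at hrel1
  have hc4 : E.c₄ ≠ 0 := by
    intro h
    rw [h] at hj2
    apply hΔ
    have h1 : A ^ 3 * E.Δ = 0 := by linear_combination -hj2
    exact (mul_eq_zero.1 h1).resolve_left (pow_ne_zero _ hA)
  have hkey : A ^ 3 * E.c₆ ^ 2 = B ^ 2 * E.c₄ ^ 3 := by
    linear_combination A ^ 3 * hrel + 1728 * hj2 - E.c₄ ^ 3 * hrel1
  have he4 : A * (A * E.c₆ / (B * E.c₄)) ^ 2 = E.c₄ := by
    field_simp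
    linear_combination hkey
  have he6 : B * (A * E.c₆ / (B * E.c₄)) ^ 3 = E.c₆ := by
    field_simp
    linear_combination E.c₆ * hkey
  have hc6 : E.c₆ ≠ 0 := by
    intro h
    rw [h] at he4
    apply hc4
    rw [← he4]
    simp
  refine ⟨A * E.c₆ / (B * E.c₄), ?_⟩
  obtain ⟨C1, h1⟩ := TU.k6_short E
  obtain ⟨C2, h2⟩ := TU.k6_short (W (A * E.c₆ / (B * E.c₄)))
  rw [c4, c6, he4, he6, ← h1] at h2
  refine ⟨C1⁻¹ * C2, ?_, ?_⟩
  · exact div_ne_zero (mul_ne_zero hA hc6) (mul_ne_zero hB hc4)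
  · rw [mul_smul, h2, inv_smul_smul]

end ORD
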