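import Pool.Agent.P7Y.U1

set_option autoImplicit false

open NumberField Ideal IsDedekindDomain
open scoped Classical

/-!
# [ORD-O1] `j = 255³`: integral equations whose discriminant is not divisible by `w ^ 12`
-/

namespace PP

variable {K : Type} [Field K] [NumberField K]

/-- **[ORD-O1]** If an integral equation has `c₄ = -255 t⁴ δ²`, `c₆ = 1539 √-7 t⁶ δ³`, `w ∤ t` and `w² ∤ δ` then `w² ∣ δ + 1`. -/
theorem o1_w (F : Fld K) {δ t : 𝓞 K} (hδ : ¬ F.w ^ 2 ∣ δ) (M : WeierstrassCurve (𝓞 K))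
    (h4 : M.c₄ = -255 * t ^ 4 * δ ^ 2) (h6 : M.c₆ = 1539 * F.rr * t ^ 6 * δ ^ 3) (ht : ¬ F.w ∣ t) :
    F.w ^ 2 ∣ δ + 1 := by
  have hw := F.w_prime
  have h2 := u1_two F
  have hw4 : F.w ^ 2 ∣ (4 : 𝓞 K) := k3_w2_four F
  have h255 : ¬ F.w ∣ (255 : 𝓞 K) := by
    intro h
    have h1 : F.w ∣ (1 : 𝓞 K) := by
      have : (1 : 𝓞 K) = 2 * 128 - 255 := by norm_num
      rw [this]
      exact dvd_sub (h2.mul_right _) h
    exact hw.not_isUnit (isUnit_of_dvd_one h1)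
  have hc4 : M.c₄ = M.b₂ ^ 2 - 24 * M.b₄ := rfl
  have hc6 : M.c₆ = -M.b₂ ^ 3 + 36 * M.b₂ * M.b₄ - 216 * M.b₆ := rfl
  have hb2 : M.b₂ = M.a₁ ^ 2 + 4 * M.a₂ := rfl
  have hb4 : M.b₄ = 2 * M.a₄ + M.a₁ * M.a₃ := rfl
  have hdδ : ¬ F.w ∣ δ := by
    intro hd
    -- `w ∣ c₆`
    have g1 : F.w ∣ M.c₆ := by
      rw [h6]
      exact (dvd_pow hd (by norm_num)).mul_left _
    have g2 : F.w ∣ M.b₂ ^ 3 := by
      have e : M.b₂ ^ 3 = 2 * (18 * M.b₂ * M.b₄ - 108 * M.b₆) - M.c₆ := by rw [hc6]; ring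
      rw [e]
      exact dvd_sub (h2.mul_right _) g1
    have g3 : F.w ∣ M.a₁ := by
      have g4 := hw.dvd_of_dvd_pow g2
      have g5 : F.w ∣ M.a₁ ^ 2 := by
        have e : M.a₁ ^ 2 = M.b₂ - 2 * (2 * M.a₂) := by rw [hb2]; ring
        rw [e]
        exact dvd_sub g4 (h2.mul_right _)
      exact hw.dvd_of_dvd_pow g5
    have g6 : F.w ^ 2 ∣ M.b₂ := by
      rw [hb2]
      exact dvd_add (pow_dvd_pow_of_dvd g3 2) (hw4.mul_right _)
    have g7 : F.w ∣ M.b₄ := by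
      rw [hb4]
      exact dvd_add (h2.mul_right _) (g3.mul_right _)
    have g8 : F.w ^ 4 ∣ M.c₄ := by
      rw [hc4]
      refine dvd_sub ?_ ?_
      · have := pow_dvd_pow_of_dvd g6 2
        rwa [← pow_mul] at this
      · have e : (24 : 𝓞 K) * M.b₄ = (4 * 2 * M.b₄) * 3 := by ring
        rw [e]
        refine Dvd.dvd.mul_right ?_ _
        have e2 : F.w ^ 4 = F.w ^ 2 * F.w * F.w := by ring
        rw [e2]
        exact mul_dvd_mul (mul_dvd_mul hw4 h2) g7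
    have g9 : F.w ^ 4 ∣ δ ^ 2 := by
      have e : M.c₄ = (255 * t ^ 4) * (-δ ^ 2) := by rw [h4]; ring
      rw [e] at g8
      have hcop : ¬ F.w ∣ 255 * t ^ 4 := by
        intro h
        rcases hw.dvd_or_dvd h with h | h
        · exact h255 h
        · exact ht (hw.dvd_of_dvd_pow h)
      have := hw.pow_dvd_of_dvd_mul_left 4 hcop g8
      rwa [dvd_neg] at this
    apply hδ
    have e : F.w ^ 4 = (F.w ^ 2) ^ 2 := by ring
    rw [e] at g9
    obtain ⟨x, rfl⟩ := hd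
    -- `w² ∣ x²`
    have hw0 : F.w ^ 2 ≠ 0 := pow_ne_zero _ hw.ne_zero
    have g10 : F.w ^ 2 ∣ x ^ 2 := by
      have e3 : (F.w * x) ^ 2 = F.w ^ 2 * x ^ 2 := by ring
      rw [e3, sq (F.w ^ 2)] at g9
      exact (mul_dvd_mul_iff_left hw0).1 g9
    have g11 : F.w ∣ x := hw.dvd_of_dvd_pow ((dvd_pow_self _ (by norm_num)).trans g10)
    rw [sq]
    exact mul_dvd_mul_left _ g11
  -- now `c₆` is a unit at `w`
  have hsδ := u1_sq F hdδ
  have hst := u1_sq F ht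
  have hrr : F.w ^ 2 ∣ F.rr + 1 := k3_rr F
  have hrw : ¬ F.w ∣ F.rr := by
    intro h
    have h1 : F.w ∣ (1 : 𝓞 K) := by
      have : (1 : 𝓞 K) = (F.rr + 1) - F.rr := by ring
      rw [this]
      exact dvd_sub ((dvd_pow_self _ (by norm_num)).trans hrr) h
    exact hw.not_isUnit (isUnit_of_dvd_one h1)
  -- `c₆ ≡ δ mod w²`
  have k1 : F.w ^ 2 ∣ M.c₆ - δ := by
    obtain ⟨p, hp⟩ := hsδ
    obtain ⟨q, hq⟩ := hst
    obtain ⟨s, hs⟩ := hrr
    obtain ⟨m, hm⟩ := hw4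
    have e1 : δ ^ 2 = 1 + F.w ^ 2 * p := by linear_combination hp
    have e2 : t ^ 2 = 1 + F.w ^ 2 * q := by linear_combination hq
    have e3 : F.rr = -1 + F.w ^ 2 * s := by linear_combination hs
    have e4 : M.c₆ - δ = 1539 * (-1 + F.w ^ 2 * s) * (1 + F.w ^ 2 * q) ^ 3 * (1 + F.w ^ 2 * p) * δ - δ := by
      rw [h6, ← e1, ← e2, ← e3]
      ring
    have e5 : (1540 : 𝓞 K) = F.w ^ 2 * (385 * m) := by linear_combination 385 * hm
    refine ⟨δ * (1539 * s * (1 + F.w ^ 2 * q) ^ 3 * (1 + F.w ^ 2 * p) -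
      1539 * (3 * q + 3 * F.w ^ 2 * q ^ 2 + F.w ^ 4 * q ^ 3) * (1 + F.w ^ 2 * p) - 1539 * p - 385 * m), ?_⟩
    rw [e4]
    linear_combination -δ * e5
  -- `c₆ ≡ -1 mod w²`
  have k2 : F.w ^ 2 ∣ M.c₆ + 1 := by
    have hc : ¬ F.w ∣ M.c₆ := by
      rw [h6]
      intro h
      rcases hw.dvd_or_dvd h with h | h
      · rcases hw.dvd_or_dvd h with h | h
        · rcases hw.dvd_or_dvd h with h | h
          · have h1 : F.w ∣ (1 : 𝓞 K) := by
              have : (1 : 𝓞 K) = 2 * 770 - 1539 := by norm_num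
              rw [this]
              exact dvd_sub (h2.mul_right _) h
            exact hw.not_isUnit (isUnit_of_dvd_one h1)
          · exact hrw h
        · exact ht (hw.dvd_of_dvd_pow h)
      · exact hdδ (hw.dvd_of_dvd_pow h)
    have ha : ¬ F.w ∣ M.a₁ := by
      intro h
      apply hc
      have hb : F.w ∣ M.b₂ := by
        rw [hb2]
        have e : (4 : 𝓞 K) * M.a₂ = 2 * (2 * M.a₂) := by ring
        rw [e]
        exact dvd_add (dvd_pow h (by norm_num)) (h2.mul_right _)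
      have e : M.c₆ = -(M.b₂ * (M.b₂ ^ 2)) + 2 * (18 * M.b₂ * M.b₄ - 108 * M.b₆) := by rw [hc6]; ring
      rw [e]
      exact dvd_add ((hb.mul_right _).neg_right) (h2.mul_right _)
    obtain ⟨p, hp⟩ := u1_sq F ha
    obtain ⟨m, hm⟩ := hw4
    have e1 : M.a₁ ^ 2 = 1 + F.w ^ 2 * p := by linear_combination hp
    have e2 : M.b₂ = 1 + F.w ^ 2 * (p + m * M.a₂) := by
      rw [hb2, e1, hm]; ring
    have e3 : M.c₆ + 1 = -(M.b₂ ^ 3 - 1) + 4 * (9 * M.b₂ * M.b₄ - 54 * M.b₆) := by rw [hc6]; ring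
    rw [e3]
    refine dvd_add (Dvd.dvd.neg_right ?_) (Dvd.dvd.mul_right ⟨m, hm⟩ _)
    have e4 : M.b₂ ^ 3 - 1 = (M.b₂ - 1) * (M.b₂ ^ 2 + M.b₂ + 1) := by ring
    rw [e4]
    refine Dvd.dvd.mul_right ⟨p + m * M.a₂, ?_⟩ _
    linear_combination e2
  have e : δ + 1 = (M.c₆ + 1) - (M.c₆ - δ) := by ring
  rw [e]
  exact dvd_sub k2 k1

end PP
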