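import Pool.Agent.P7O.O1
import Pool.Agent.P7O.O0
import Pool.Agent.P7Y.U2
import Pool.Agent.UN.Base

set_option autoImplicit false

open NumberField Ideal IsDedekindDomain
open scoped Classical

/-!
# [ORD-O2] the curves with `j = 255³` (complex multiplication by `ℤ[√-7]`); explicit integral equations over `ℚ(√-7)`
-/

namespace ORD

open PP

/-- `y² = x (x² - 42 d x - 7 d²)`, the quotient of `y² = x (x² + 21 d x + 112 d²)` (isomorphic to `TTS.Ws d`) by `(0, 0)` -/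
def Wo {R : Type*} [CommRing R] (d : R) : WeierstrassCurve R := ⟨0, -42 * d, 0, -7 * d ^ 2, 0⟩

section
variable {R : Type*} [CommRing R] (d : R)

theorem Wo_map {S : Type*} [CommRing S] (φ : R →+* S) : (Wo d).map φ = Wo (φ d) := by
  have h1 : φ 42 = 42 := map_ofNat φ 42
  have h2 : φ 7 = 7 := map_ofNat φ 7
  ext <;> simp [Wo, WeierstrassCurve.map, h1, h2]

theorem Wo_Δ : (Wo d).Δ = 1404928 * d ^ 6 := by
  simp only [Wo, WeierstrassCurve.Δ, WeierstrassCurve.b₂, WeierstrassCurve.b₄,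
    WeierstrassCurve.b₆, WeierstrassCurve.b₈]
  ring

theorem Wo_c₄ : (Wo d).c₄ = 28560 * d ^ 2 := by
  simp only [Wo, WeierstrassCurve.c₄, WeierstrassCurve.b₂, WeierstrassCurve.b₄]
  ring

theorem Wo_c₆ : (Wo d).c₆ = 4826304 * d ^ 3 := by
  simp only [Wo, WeierstrassCurve.c₆, WeierstrassCurve.b₂, WeierstrassCurve.b₄, WeierstrassCurve.b₆]
  ring

end

theorem Wo_Δ_ne {K : Type} [Field K] [CharZero K] {d : K} (hd : d ≠ 0) : (Wo d).Δ ≠ 0 := by
  rw [Wo_Δ]
  exact mul_ne_zero (by norm_num) (pow_ne_zero _ hd)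

theorem Wo_scale {K : Type} [Field K] {s d : K} (hs : s ≠ 0) :
    ∃ C : WeierstrassCurve.VariableChange K, Wo (s ^ 2 * d) = C • Wo d ∧ (C.u : K) = s⁻¹ := by
  refine ⟨⟨Units.mk0 s⁻¹ (inv_ne_zero hs), 0, 0, 0⟩, ?_, rfl⟩
  have hu : ((Units.mk0 s⁻¹ (inv_ne_zero hs))⁻¹ : Kˣ) = Units.mk0 s hs := by
    ext
    rw [Units.val_inv_eq_inv_val, Units.val_mk0, Units.val_mk0, inv_inv]
  rw [WeierstrassCurve.variableChange_def, hu]
  simp only [Wo, Units.val_mk0]
  ext <;> simp only [] <;> ring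

/-- every curve with `j = 255³` -/
theorem exists_Wo {L : Type} [Field L] [CharZero L] (E : WeierstrassCurve L) [E.IsElliptic] (hj : E.j = 16581375) :
    ∃ (d : L) (C : WeierstrassCurve.VariableChange L), d ≠ 0 ∧ E = C • Wo d :=
  exists_tw Wo (A := 28560) (B := 4826304) (D₀ := 1404928) (by norm_num) (by norm_num) Wo_c₄ Wo_c₆ Wo_Δ E (by
    rw [hj]; norm_num)

section
variable {K : Type} [Field K] [NumberField K]

/-- **[ORD-O2]** an integral equation of discriminant `- s¹² δ⁶` -/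
theorem o2_model (F : Fld K) {δ s : 𝓞 K} (hs : s ≠ 0) (h1 : F.w ∣ s ∨ F.w ^ 2 ∣ δ + 1)
    (h2 : F.neg.w ∣ s ∨ F.neg.w ^ 2 ∣ -δ + 1) :
    ∃ (M : WeierstrassCurve (𝓞 K)) (C : WeierstrassCurve.VariableChange K),
      M.map (algebraMap (𝓞 K) K) = C • Wo ((δ : K) * F.r) ∧ M.Δ = -(s ^ 12 * δ ^ 6) := by
  have g1 := u2_dvd F h1
  have g2 : F.neg.w ^ 2 ∣ (3 * δ * F.rr + 1) * s ^ 2 := by
    have := u2_dvd F.neg (δ := -δ) h2
    rw [F.neg_rr] at this
    have e : (3 * -δ * -F.rr + 1) * s ^ 2 = (3 * δ * F.rr + 1) * s ^ 2 := by ring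
    rwa [e] at this
  obtain ⟨a, ha⟩ := u2_four F g1 g2
  have hs0 : (s : K) ≠ 0 := by exact_mod_cast hs
  have hr0 : F.r ≠ 0 := by
    intro h
    have := F.hr
    rw [h] at this
    norm_num at this
  have hr := F.hr
  have hrr := F.coe_rr
  refine ⟨⟨s, -a, 0, 4 * (s ^ 4 * δ ^ 2), -(3 * F.rr * s ^ 6 * δ ^ 3)⟩,
    ⟨Units.mk0 (2 * F.r / s) (div_ne_zero (mul_ne_zero two_ne_zero hr0) hs0), 21 * (δ * F.r), F.r, 0⟩, ?_, ?_⟩
  · have haK : (3 * (δ : K) * F.r + 1) * (s : K) ^ 2 = 4 * (a : K) := by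
      have := congrArg (algebraMap (𝓞 K) K) ha
      rw [map_mul, map_mul, map_pow, map_add, map_mul, map_mul, map_one, map_ofNat, map_ofNat] at this
      rw [← hrr]
      exact this
    have hu : ((Units.mk0 (2 * F.r / (s : K)) (div_ne_zero (mul_ne_zero two_ne_zero hr0) hs0))⁻¹ : Kˣ) =
        Units.mk0 ((s : K) / (2 * F.r)) (div_ne_zero hs0 (mul_ne_zero two_ne_zero hr0)) := by
      ext
      rw [Units.val_inv_eq_inv_val, Units.val_mk0, Units.val_mk0, inv_div]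
    have r4 : F.r ^ 4 = 49 := by
      have : F.r ^ 4 = (F.r ^ 2) ^ 2 := by ring
      rw [this, hr]; norm_num
    rw [WeierstrassCurve.variableChange_def]
    simp only [Wo, hu, Units.val_mk0, WeierstrassCurve.map]
    ext
    · simp only []
      change (s : K) = _
      field_simp
      ring
    · simp only []
      change ((algebraMap (𝓞 K) K) (-a)) = _
      rw [map_neg]
      change -(a : K) = _
      have e1 : (a : K) = (3 * (δ : K) * F.r + 1) * (s : K) ^ 2 / 4 := by rw [haK]; ring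
      rw [e1]
      field_simp
      linear_combination (-12 * (δ : K)) * hr
    · simp only []
      rw [map_zero]
      ring
    · simp only []
      change ((algebraMap (𝓞 K) K) (4 * (s ^ 4 * δ ^ 2))) = _
      rw [map_mul, map_mul, map_pow, map_pow, map_ofNat]
      change 4 * ((s : K) ^ 4 * (δ : K) ^ 2) = _
      field_simp
      linear_combination (64 * (δ : K) ^ 2) * r4 + 448 * (δ : K) ^ 2 * hr
    · simp only []
      change ((algebraMap (𝓞 K) K) (-(3 * F.rr * s ^ 6 * δ ^ 3))) = _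
      rw [map_neg, map_mul, map_mul, map_mul, map_pow, map_pow, map_ofNat]
      change -(3 * (F.rr : K) * (s : K) ^ 6 * (δ : K) ^ 3) = _
      rw [hrr]
      field_simp
      linear_combination (-192 * F.r ^ 3 * (δ : K) ^ 3) * r4
  · simp only [WeierstrassCurve.Δ, WeierstrassCurve.b₂, WeierstrassCurve.b₄, WeierstrassCurve.b₆, WeierstrassCurve.b₈]
    have hrr2 := F.rr_sq
    linear_combination (3 * F.rr * s ^ 6 * δ ^ 3 * ((s ^ 2 - 4 * a) ^ 2 + (s ^ 2 - 4 * a) * (-3 * δ * F.rr * s ^ 2) +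
      (-3 * δ * F.rr * s ^ 2) ^ 2) + (4 * s ^ 4 * δ ^ 2) ^ 2 * (s ^ 2 - 4 * a + -3 * δ * F.rr * s ^ 2) +
      72 * (4 * s ^ 4 * δ ^ 2) * (-3 * F.rr * s ^ 6 * δ ^ 3)) * ha - s ^ 12 * δ ^ 6 * (81 * F.rr ^ 2 + 585) * hrr2

end

end ORD
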