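import Pool.Agent.P7O.O2
import Pool.Agent.P7Y.U4

set_option autoImplicit false

open NumberField Ideal IsDedekindDomain
open scoped Classical

/-!
# [ORD-O3] curves with complex multiplication by `ℤ[√-7]` (`j = 255³`) over `ℚ(√-7)`, ordered by the norm of the minimal discriminant
-/

namespace PP

section
variable {K : Type} [Field K] [NumberField K]

/-- the curve with `j = 255³` and the given parameters -/
noncomputable def Fld.Wp (F : Fld K) (p : Par K) : WeierstrassCurve K := ORD.Wo ((F.de p : K) * F.r)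

/-- **[ORD-O3]** the lower bound -/
theorem o3_low (F : Fld K) (p : Par K) :
    (∃ _ : (F.Wp p).IsElliptic, (F.Wp p).j = 16581375) ∧ UN.DiscLE (F.Wp p) (hgt M7 6 p) := by
  have hd := u4_de_ne F p
  constructor
  · refine ⟨⟨isUnit_iff_ne_zero.2 (ORD.Wo_Δ_ne hd)⟩, ?_⟩
    have hell : (F.Wp p).IsElliptic := ⟨isUnit_iff_ne_zero.2 (ORD.Wo_Δ_ne hd)⟩
    have h1 : (F.Wp p).Δ ≠ 0 := ORD.Wo_Δ_ne hd
    have h : (F.Wp p).c₄ ^ 3 = 16581375 * (F.Wp p).Δ := by
      unfold Fld.Wp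
      rw [ORD.Wo_c₄, ORD.Wo_Δ]
      ring
    rw [WeierstrassCurve.j, h, Units.val_inv_eq_inv_val, WeierstrassCurve.coe_Δ']
    field_simp
  · have h1 : F.w ∣ F.sc p ∨ F.w ^ 2 ∣ F.de p + 1 := by
      unfold Fld.sc Fld.de u4P
      split_ifs with h
      · exact Or.inr ((u3_good F _ _ _ _).2 h)
      · left
        rw [pow_one]
        exact dvd_mul_right _ _
    have h2 : F.neg.w ∣ F.sc p ∨ F.neg.w ^ 2 ∣ -F.de p + 1 := by
      unfold Fld.sc Fld.de u4Q
      split_ifs with h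
      · exact Or.inr ((u3_good' F _ _ _ _).2 h)
      · left
        rw [pow_one]
        exact dvd_mul_left _ _
    obtain ⟨M, C, hM, hΔ⟩ := ORD.o2_model F (u4_sc_ne F p) h1 h2
    refine ⟨M, C⁻¹, ?_, ?_⟩
    · rw [hM, inv_smul_smul]
      rfl
    · rw [hΔ, Ideal.span_singleton_neg, u4_nmul, u4_npow, u4_npow, u4_hgt F]

/-- **[ORD-O3]** the upper bound -/
theorem o3_up (F : Fld K) (E : WeierstrassCurve K) (X : ℕ) (hE : ∃ _ : E.IsElliptic, E.j = 16581375)
    (hX : UN.DiscLE E X) : ∃ (p : Par K) (C : WeierstrassCurve.VariableChange K), E = C • F.Wp p ∧ hgt M7 6 p ≤ X := by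
  obtain ⟨hell, hj⟩ := hE
  obtain ⟨d, C, hd, hC⟩ := ORD.exists_Wo E hj
  have hr0 := u4_r_ne F
  obtain ⟨δ, s, hδ, hs, hds⟩ := PPS.sqf_rep (PPS.dat F) (d * F.r) (mul_ne_zero hd hr0)
  have hx : s / F.r ≠ 0 := div_ne_zero hs hr0
  have hdx : d = (s / F.r) ^ 2 * ((δ : K) * F.r) := by
    rw [div_pow]
    field_simp
    linear_combination hds
  obtain ⟨C₁, hC₁, -⟩ := ORD.Wo_scale (d := (δ : K) * F.r) hx
  have hE : E = (C * C₁) • ORD.Wo ((δ : K) * F.r) := by
    rw [hC, mul_smul, ← hC₁, ← hdx]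
  obtain ⟨e, i, j, hδe⟩ := u3_exists F hδ
  have hp : F.de ((e, i, j), supp δ) = δ := hδe.symm
  refine ⟨((e, i, j), supp δ), C * C₁, ?_, ?_⟩
  · unfold Fld.Wp
    rw [hp]
    exact hE
  obtain ⟨M, C2, h1, h2⟩ := hX
  have e1 : M.map (algebraMap (𝓞 K) K) = (C2⁻¹ * (C * C₁)) • ORD.Wo ((δ : K) * F.r) := by
    rw [mul_smul, ← hE, h1, inv_smul_smul]
  have hu : ((C2⁻¹ * (C * C₁)).u⁻¹ : Kˣ).val ≠ 0 := Units.ne_zero _
  have k4 := congrArg WeierstrassCurve.c₄ e1
  have k6 := congrArg WeierstrassCurve.c₆ e1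
  have kΔ := congrArg WeierstrassCurve.Δ e1
  rw [WeierstrassCurve.map_c₄, WeierstrassCurve.variableChange_c₄, ORD.Wo_c₄] at k4
  rw [WeierstrassCurve.map_c₆, WeierstrassCurve.variableChange_c₆, ORD.Wo_c₆] at k6
  rw [WeierstrassCurve.map_Δ, WeierstrassCurve.variableChange_Δ, ORD.Wo_Δ] at kΔ
  generalize ((C2⁻¹ * (C * C₁)).u⁻¹ : Kˣ).val = u at hu k4 k6 kΔ
  have hr := F.hr
  have r4 : F.r ^ 4 = 49 := by
    have : F.r ^ 4 = (F.r ^ 2) ^ 2 := by ring
    rw [this, hr]; norm_num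
  have r6 : F.r ^ 6 = -343 := by
    have : F.r ^ 6 = (F.r ^ 2) ^ 3 := by ring
    rw [this, hr]; norm_num
  have r12 : F.r ^ 12 = 117649 := by
    have : F.r ^ 12 = (F.r ^ 2) ^ 6 := by ring
    rw [this, hr]; norm_num
  have hx0 : 2 * F.r * u ≠ 0 := mul_ne_zero (mul_ne_zero two_ne_zero hr0) hu
  obtain ⟨t, ht⟩ := u4_int hδ hx0 (PPS.sf_not_sq (PPS.dat F) hδ) (Δ := -M.Δ) (by
    change algebraMap (𝓞 K) K (-M.Δ) = _
    rw [map_neg, kΔ]
    have e2 : (2 * F.r * u) ^ 12 = 4096 * F.r ^ 12 * u ^ 12 := by ring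
    rw [e2, r12]
    linear_combination (-1404928 * u ^ 12 * (δ : K) ^ 6) * r6)
  have hrr := F.coe_rr
  have m4 : M.c₄ = -255 * t ^ 4 * δ ^ 2 := by
    apply FaithfulSMul.algebraMap_injective (𝓞 K) K
    rw [map_mul, map_mul, map_pow, map_pow, map_neg, map_ofNat]
    change _ = -255 * (t : K) ^ 4 * (δ : K) ^ 2
    rw [k4, ht]
    linear_combination 28560 * u ^ 4 * (δ : K) ^ 2 * hr + 4080 * u ^ 4 * (δ : K) ^ 2 * r4
  have m6 : M.c₆ = 1539 * F.rr * t ^ 6 * δ ^ 3 := by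
    apply FaithfulSMul.algebraMap_injective (𝓞 K) K
    rw [map_mul, map_mul, map_mul, map_pow, map_pow, map_ofNat]
    change _ = 1539 * (F.rr : K) * (t : K) ^ 6 * (δ : K) ^ 3
    rw [k6, ht, hrr]
    linear_combination 4826304 * u ^ 6 * (δ : K) ^ 3 * F.r * hr - 98496 * u ^ 6 * (δ : K) ^ 3 * F.r * r6
  have mΔ : M.Δ = -(t ^ 12 * δ ^ 6) := by
    apply FaithfulSMul.algebraMap_injective (𝓞 K) K
    rw [map_neg, map_mul, map_pow, map_pow]
    change _ = -((t : K) ^ 12 * (δ : K) ^ 6)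
    rw [kΔ, ht]
    have e2 : (2 * F.r * u) ^ 12 = 4096 * F.r ^ 12 * u ^ 12 := by ring
    rw [e2, r12]
    linear_combination (1404928 * u ^ 12 * (δ : K) ^ 6) * r6
  have ht0 : t ≠ 0 := by
    rintro rfl
    apply hx0
    rw [← ht]
    exact map_zero (algebraMap (𝓞 K) K)
  -- the scaling divides `t`
  have g1 : F.w ^ u4P ((e, i, j), supp δ) ∣ t := by
    unfold u4P
    split_ifs with h
    · rw [pow_zero]
      exact one_dvd _
    · rw [pow_one]
      by_contra hcon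
      apply h
      have hsq : ¬ F.w ^ 2 ∣ δ := by
        intro hw
        rw [sq] at hw
        exact F.w_prime.not_isUnit (hδ _ hw)
      have g := o1_w F hsq M m4 m6 hcon
      rw [hδe] at g
      exact (u3_good F _ _ _ _).1 g
  have g2 : F.neg.w ^ u4Q ((e, i, j), supp δ) ∣ t := by
    unfold u4Q
    split_ifs with h
    · rw [pow_zero]
      exact one_dvd _
    · rw [pow_one]
      by_contra hcon
      apply h
      have hsq : ¬ F.neg.w ^ 2 ∣ -δ := by
        intro hw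
        rw [dvd_neg, sq] at hw
        exact F.neg.w_prime.not_isUnit (hδ _ hw)
      have g := o1_w F.neg hsq M (by rw [m4]; ring) (by rw [m6, F.neg_rr]; ring) hcon
      rw [hδe] at g
      exact (u3_good' F _ _ _ _).1 g
  have g3 : F.sc ((e, i, j), supp δ) ∣ t := by
    unfold Fld.sc
    refine IsCoprime.mul_dvd ?_ g1 g2
    have c1 : IsCoprime F.w F.neg.w := ⟨1, 1, by rw [F.neg_w]; ring⟩
    exact c1.pow
  have g4 : absNorm (span {F.sc ((e, i, j), supp δ)}) ≤ absNorm (span {t}) := by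
    refine Nat.le_of_dvd ?_ (Ideal.absNorm_dvd_absNorm_of_le ?_)
    · rw [Nat.pos_iff_ne_zero, Ne, Ideal.absNorm_eq_zero_iff, Ideal.span_singleton_eq_bot]
      exact ht0
    · rw [Ideal.span_singleton_le_span_singleton]
      exact g3
  rw [u4_hgt F, hp]
  refine le_trans ?_ h2
  rw [mΔ, Ideal.span_singleton_neg, u4_nmul, u4_npow, u4_npow]
  exact Nat.mul_le_mul_right _ (Nat.pow_le_pow_left g4 12)

/-- **[ORD-O3]** different parameters give non-isomorphic curves -/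
theorem o3_inj (F : Fld K) (p p' : Par K) (C : WeierstrassCurve.VariableChange K) (hC : F.Wp p = C • F.Wp p') : p = p' := by
  have hu : (C.u : K) ≠ 0 := C.u.ne_zero
  have hui : ((C.u⁻¹ : Kˣ) : K) = (C.u : K)⁻¹ := Units.val_inv_eq_inv_val _
  have c4 := congrArg WeierstrassCurve.c₄ hC
  have c6 := congrArg WeierstrassCurve.c₆ hC
  unfold Fld.Wp at c4 c6
  rw [WeierstrassCurve.variableChange_c₄, ORD.Wo_c₄, ORD.Wo_c₄, hui] at c4
  rw [WeierstrassCurve.variableChange_c₆, ORD.Wo_c₆, ORD.Wo_c₆, hui] at c6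
  have hd := u4_de_ne F p
  have hd' := u4_de_ne F p'
  have hr0 := u4_r_ne F
  generalize hx : (F.de p : K) * F.r = x at c4 c6 hd
  generalize hy : (F.de p' : K) * F.r = y at c4 c6 hd'
  have e4 : x ^ 2 * (C.u : K) ^ 4 = y ^ 2 := by
    field_simp at c4
    exact c4
  have e6 : x ^ 3 * (C.u : K) ^ 6 = y ^ 3 := by
    field_simp at c6
    exact c6
  have e2 : x * (C.u : K) ^ 2 = y := by
    apply mul_left_cancel₀ (pow_ne_zero 2 hd')
    have h5 : y ^ 2 * y = y ^ 3 := by ring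
    rw [h5, ← e6, ← e4]
    ring
  have e1 : (F.de p : K) * (C.u : K) ^ 2 = (F.de p' : K) := by
    apply mul_right_cancel₀ hr0
    rw [← hx, ← hy] at e2
    linear_combination e2
  have hδ : Squarefree (F.de p) := u3_sqf F _ _ _ _
  have hδ' : Squarefree (F.de p') := u3_sqf F _ _ _ _
  have hval : ∀ v : HeightOneSpectrum (𝓞 K), v.valuation K (C.u : K) = 1 := by
    intro v
    have h1 := congrArg (v.valuation K) e1
    rw [map_mul, map_pow] at h1
    have hv0 : v.valuation K (C.u : K) ≠ 0 := (map_ne_zero _).2 hu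
    have key : ∀ x : 𝓞 K, Squarefree x → ∃ d : ℕ, d ≤ 1 ∧ v.valuation K (x : K) = WithZero.exp (-(d : ℤ)) := by
      intro x hx
      obtain ⟨d, hd, hd'⟩ := UN.val_form v hx.ne_zero
      refine ⟨d, ?_, hd⟩
      by_contra hcon
      exact PPS.sf_not_sq (PPS.dat F) hx v (Ideal.pow_le_pow_right (by omega : 2 ≤ d) hd')
    obtain ⟨a, ha1, ha⟩ := key _ hδ
    obtain ⟨b, hb1, hb⟩ := key _ hδ'
    obtain ⟨m, hm⟩ : ∃ m : ℤ, v.valuation K (C.u : K) = WithZero.exp m := ⟨_, (WithZero.exp_log hv0).symm⟩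
    rw [ha, hb, hm, ← WithZero.exp_nsmul, ← WithZero.exp_add, WithZero.exp_inj, nsmul_eq_mul] at h1
    push_cast at h1
    have hm0 : m = 0 := by omega
    rw [hm, hm0, WithZero.exp_zero]
  obtain ⟨a, ha⟩ : ∃ a : 𝓞 K, (a : K) = (C.u : K) :=
    HeightOneSpectrum.mem_integers_of_valuation_le_one (R := 𝓞 K) K (C.u : K) fun v => (hval v).le
  obtain ⟨b, hb⟩ : ∃ b : 𝓞 K, (b : K) = (C.u : K)⁻¹ :=
    HeightOneSpectrum.mem_integers_of_valuation_le_one (R := 𝓞 K) K (C.u : K)⁻¹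
      fun v => by rw [map_inv₀, hval v, inv_one]
  have hab : a * b = 1 := by
    apply RingOfIntegers.ext
    have h5 : ((a * b : 𝓞 K) : K) = (a : K) * (b : K) := rfl
    rw [h5, ha, hb, mul_inv_cancel₀ hu]
    exact (map_one (algebraMap (𝓞 K) K)).symm
  have hu2 : (C.u : K) ^ 2 = 1 := by
    rw [← ha]
    rcases (F.unit_iff a).1 (IsUnit.of_mul_eq_one b hab) with h1 | h1
    · rw [h1]
      simp
    · rw [h1]
      simp
  rw [hu2, mul_one] at e1
  have e0 : F.de p = F.de p' := RingOfIntegers.ext e1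
  obtain ⟨h1, h2, h3, h4⟩ := u3_inj F e0
  obtain ⟨⟨e, i, j⟩, S⟩ := p
  obtain ⟨⟨e', i', j'⟩, S'⟩ := p'
  simp only at h1 h2 h3 h4
  rw [h1, h2, h3, h4]

/-- **[ORD-O3]** The final theorem: if `P` holds for the curves with good parameters then it holds for more than `c` of all the curves with
complex multiplication by the ring of integers of `ℚ(√-7)`, ordered by the norm of the minimal discriminant, for each `c < 188/651`. -/
theorem sevenO (F : Fld K) {P : WeierstrassCurve K → Prop}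
    (H : ∀ (e i j : ZMod 2) (S : Finset (OP K)), P7B.Good F e i j S → P (ORD.Wo ((F.Del e i j S : K) * F.r)))
    {c : ℝ} (hc : c < c5) :
    (∀ X : ℕ, (UN.fam K (16581375) (fun _ => True) X).Finite) ∧ ∃ X0 : ℕ, ∀ X : ℕ, X0 ≤ X →
      c * ((UN.fam K (16581375) (fun _ => True) X).ncard : ℝ) ≤ ((UN.fam K (16581375) P X).ncard : ℝ) :=
  UN.par_count (16581375) P (hgt M7 6) F.Wp (fun p => P7B.Good F p.1.1 p.1.2.1 p.1.2.2 p.2) c (o3_up F) (o3_low F)
    (o3_inj F) (fun p hp => H _ _ _ _ hp) (density_par F M7 one_le_M7 (by norm_num) hc)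

end

end PP
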